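import Mathlib

/-!
Rigidity of a pair of complementary variables.
-/

set_option autoImplicit false

open Finset

namespace H38.HC

abbrev V := Fin 4 → Bool

def comp (v : V) : V := fun j => !v j

def S (z : V → ℕ) (j : Fin 4) : ℕ := ∏ v, (if v j = true then z v else 1)

def E (z : V → ℕ) (j : Fin 4) : ℕ := ∏ v, (if v j = true then 1 else z v)

def rest (v : V) (z : V → ℕ) : V → ℕ := fun u => if u = v ∨ u = comp v then 1 else z u

theorem comp_ne (v : V) : comp v ≠ v := fun h => by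
  have := congrFun h 0
  simp [comp] at this

theorem prod_pair (v : V) (F : V → ℕ) :
    ∏ u, F u = F v * F (comp v) * ∏ u, (if u = v ∨ u = comp v then 1 else F u) := by
  have h1 : ∀ u, F u = (if u = v then F v else 1) * (if u = comp v then F (comp v) else 1) *
      (if u = v ∨ u = comp v then 1 else F u) := by
    intro u
    by_cases h : u = v
    · subst h
      have := comp_ne u
      simp [this.symm]
    · by_cases h' : u = comp v
      · subst h'
        simp [comp_ne v]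
      · simp [h, h']
  rw [prod_congr rfl fun u _ => h1 u, prod_mul_distrib, prod_mul_distrib]
  simp

theorem prod_if (v : V) (z : V → ℕ) (T : V → Bool) :
    ∏ u, (if T u = true then z u else 1) =
      (if T v = true then z v else 1) * (if T (comp v) = true then z (comp v) else 1) *
        ∏ u, (if T u = true then rest v z u else 1) := by
  have h := prod_pair v (fun u => if T u = true then z u else 1)
  have h2 : ∏ u, (if u = v ∨ u = comp v then 1 else (if T u = true then z u else 1)) =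
      ∏ u, (if T u = true then rest v z u else 1) := by
    refine prod_congr rfl fun u _ => ?_
    unfold rest
    by_cases h3 : T u = true
    · simp only [h3, if_true]
    · simp only [h3, if_false]
      split_ifs <;> rfl
  beta_reduce at h
  rw [h, h2]

def P (v : V) (z : V → ℕ) (j : Fin 4) : ℕ :=
  ∏ u, (if (u j == v j) = true then rest v z u else 1)

def Q (v : V) (z : V → ℕ) (j : Fin 4) : ℕ :=
  ∏ u, (if (u j != v j) = true then rest v z u else 1)

theorem PQ (v : V) (z : V → ℕ) (j : Fin 4) : P v z j * Q v z j = ∏ u, rest v z u := by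
  rw [P, Q, ← prod_mul_distrib]
  refine prod_congr rfl fun u _ => ?_
  cases u j <;> cases v j <;> simp

theorem prod_T (z : V → ℕ) (T T' : V → Bool) (h : ∀ u, T u = T' u) :
    ∏ u, (if T u = true then z u else 1) = ∏ u, (if T' u = true then z u else 1) :=
  prod_congr rfl fun u _ => by rw [h u]

theorem S_eq (z : V → ℕ) (j : Fin 4) : S z j = ∏ u : V, (if (u j) = true then z u else 1) := rfl

theorem E_eq (z : V → ℕ) (j : Fin 4) : E z j = ∏ u : V, (if (!(u j)) = true then z u else 1) := by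
  refine prod_congr rfl fun u _ => ?_
  cases u j <;> simp

theorem SE_true (v : V) (z : V → ℕ) (j : Fin 4) (hv : v j = true) :
    S z j = z v * P v z j ∧ E z j = z (comp v) * Q v z j := by
  have hc : comp v j = false := by simp [comp, hv]
  constructor
  · rw [S_eq, prod_if v z (fun u => u j), P]
    simp only [hv, hc, if_true, Bool.false_eq_true, if_false, mul_one]
    exact congrArg _ (prod_T _ _ _ fun u => by cases u j <;> rfl)
  · rw [E_eq, prod_if v z (fun u => !(u j)), Q]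
    simp only [hv, hc, Bool.not_true, Bool.not_false, if_true, Bool.false_eq_true, if_false,
      one_mul]
    exact congrArg _ (prod_T _ _ _ fun u => by cases u j <;> rfl)

theorem SE_false (v : V) (z : V → ℕ) (j : Fin 4) (hv : v j = false) :
    E z j = z v * P v z j ∧ S z j = z (comp v) * Q v z j := by
  have hc : comp v j = true := by simp [comp, hv]
  constructor
  · rw [E_eq, prod_if v z (fun u => !(u j)), P]
    simp only [hv, hc, Bool.not_true, Bool.not_false, if_true, Bool.false_eq_true, if_false,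
      mul_one]
    exact congrArg _ (prod_T _ _ _ fun u => by cases u j <;> rfl)
  · rw [S_eq, prod_if v z (fun u => u j), Q]
    simp only [hv, hc, if_true, Bool.false_eq_true, if_false, one_mul]
    exact congrArg _ (prod_T _ _ _ fun u => by cases u j <;> rfl)

theorem SE_sq (v : V) (z : V → ℕ) (j : Fin 4) :
    S z j ^ 2 + E z j ^ 2 = z v ^ 2 * P v z j ^ 2 + z (comp v) ^ 2 * Q v z j ^ 2 := by
  rcases hv : v j with _ | _
  · obtain ⟨h1, h2⟩ := SE_false v z j hv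
    rw [h1, h2]; ring
  · obtain ⟨h1, h2⟩ := SE_true v z j hv
    rw [h1, h2]; ring

/-- two pairs of squares with the same sum and harmonic sum -/
theorem pairs {p q : Fin 4 → ℕ} (R : ℕ) (hR : 0 < R) (hpq : ∀ j, p j * q j = R)
    (h1 : p 0 ^ 2 + p 3 ^ 2 = p 1 ^ 2 + p 2 ^ 2) (h2 : q 0 ^ 2 + q 3 ^ 2 = q 1 ^ 2 + q 2 ^ 2) :
    p 0 = p 1 ∨ p 0 = p 2 := by
  have hp : ∀ j, 0 < p j := fun j => Nat.pos_of_ne_zero fun h0 => by
    have := hpq j; rw [h0, zero_mul] at this; omega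
  have hq : ∀ j, (q j : ℚ) = R / p j := fun j => by
    have h3 : (p j : ℚ) ≠ 0 := by exact_mod_cast (hp j).ne'
    rw [eq_div_iff h3, mul_comm]
    exact_mod_cast hpq j
  have h1' : (p 0 : ℚ) ^ 2 + p 3 ^ 2 = p 1 ^ 2 + p 2 ^ 2 := by exact_mod_cast h1
  have h2' : (q 0 : ℚ) ^ 2 + q 3 ^ 2 = q 1 ^ 2 + q 2 ^ 2 := by exact_mod_cast h2
  rw [hq, hq, hq, hq] at h2'
  have p0 : (p 0 : ℚ) ≠ 0 := by exact_mod_cast (hp 0).ne'
  have p1 : (p 1 : ℚ) ≠ 0 := by exact_mod_cast (hp 1).ne'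
  have p2 : (p 2 : ℚ) ≠ 0 := by exact_mod_cast (hp 2).ne'
  have p3 : (p 3 : ℚ) ≠ 0 := by exact_mod_cast (hp 3).ne'
  have hRq : (R : ℚ) ≠ 0 := by exact_mod_cast hR.ne'
  have h3 : ((p 0 : ℚ) ^ 2 + p 3 ^ 2) * (p 1 ^ 2 * p 2 ^ 2) =
      (p 1 ^ 2 + p 2 ^ 2) * (p 0 ^ 2 * p 3 ^ 2) := by
    field_simp at h2'
    linear_combination h2'
  have hs : (0 : ℚ) < (p 1 : ℚ) ^ 2 + p 2 ^ 2 := by positivity
  have h4 : (p 1 : ℚ) ^ 2 * p 2 ^ 2 = p 0 ^ 2 * p 3 ^ 2 := by
    rw [h1'] at h3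
    exact mul_left_cancel₀ hs.ne' h3
  have h5 : ((p 0 : ℚ) ^ 2 - p 1 ^ 2) * (p 0 ^ 2 - p 2 ^ 2) = 0 := by
    linear_combination (p 0 : ℚ) ^ 2 * h1' + h4
  rcases mul_eq_zero.1 h5 with h | h
  · left
    have h6 : (p 0 : ℚ) ^ 2 = p 1 ^ 2 := by linarith
    have h7 : p 0 ^ 2 = p 1 ^ 2 := by exact_mod_cast h6
    exact Nat.pow_left_injective (n := 2) (by norm_num) h7
  · right
    have h6 : (p 0 : ℚ) ^ 2 = p 2 ^ 2 := by linarith
    have h7 : p 0 ^ 2 = p 2 ^ 2 := by exact_mod_cast h6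
    exact Nat.pow_left_injective (n := 2) (by norm_num) h7

/-- the pair is determined by the other variables -/
theorem rigid (v : V) (z z' : V → ℕ) (hpos : ∀ u, 0 < z u) (hpos' : ∀ u, 0 < z' u)
    (hsame : rest v z = rest v z') (hcop : Nat.Coprime (z v) (z (comp v)))
    (hcop' : Nat.Coprime (z' v) (z' (comp v)))
    (hrel : (S z 0 ^ 2 + E z 0 ^ 2) + (S z 3 ^ 2 + E z 3 ^ 2) =
      (S z 1 ^ 2 + E z 1 ^ 2) + (S z 2 ^ 2 + E z 2 ^ 2))
    (hrel' : (S z' 0 ^ 2 + E z' 0 ^ 2) + (S z' 3 ^ 2 + E z' 3 ^ 2) =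
      (S z' 1 ^ 2 + E z' 1 ^ 2) + (S z' 2 ^ 2 + E z' 2 ^ 2))
    (hnd1 : S z 0 ^ 2 + E z 0 ^ 2 ≠ S z 1 ^ 2 + E z 1 ^ 2)
    (hnd2 : S z 0 ^ 2 + E z 0 ^ 2 ≠ S z 2 ^ 2 + E z 2 ^ 2) : z = z' := by
  have hP : ∀ j, P v z' j = P v z j := fun j => by rw [P, P, hsame]
  have hQ : ∀ j, Q v z' j = Q v z j := fun j => by rw [Q, Q, hsame]
  have hR : 0 < ∏ u, rest v z u := prod_pos fun u _ => by
    unfold rest; split_ifs
    · exact one_pos
    · exact hpos u
  simp only [SE_sq v, hP, hQ] at hrel hrel' hnd1 hnd2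
  set a := z v
  set b := z (comp v)
  set a' := z' v
  set b' := z' (comp v)
  have ha : 0 < a := hpos _
  have hb : 0 < b := hpos _
  have ha' : 0 < a' := hpos' _
  have hb' : 0 < b' := hpos' _
  set p := P v z
  set q := Q v z
  have hpq : ∀ j, p j * q j = ∏ u, rest v z u := PQ v z
  have r1 : (a : ℤ) ^ 2 * ((p 0 : ℤ) ^ 2 + p 3 ^ 2 - p 1 ^ 2 - p 2 ^ 2) +
      (b : ℤ) ^ 2 * ((q 0 : ℤ) ^ 2 + q 3 ^ 2 - q 1 ^ 2 - q 2 ^ 2) = 0 := by
    have : ((a ^ 2 * p 0 ^ 2 + b ^ 2 * q 0 ^ 2 + (a ^ 2 * p 3 ^ 2 + b ^ 2 * q 3 ^ 2) : ℕ) : ℤ) =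
      ((a ^ 2 * p 1 ^ 2 + b ^ 2 * q 1 ^ 2 + (a ^ 2 * p 2 ^ 2 + b ^ 2 * q 2 ^ 2) : ℕ) : ℤ) := by
      exact_mod_cast hrel
    push_cast at this
    linear_combination this
  have r2 : (a' : ℤ) ^ 2 * ((p 0 : ℤ) ^ 2 + p 3 ^ 2 - p 1 ^ 2 - p 2 ^ 2) +
      (b' : ℤ) ^ 2 * ((q 0 : ℤ) ^ 2 + q 3 ^ 2 - q 1 ^ 2 - q 2 ^ 2) = 0 := by
    have : ((a' ^ 2 * p 0 ^ 2 + b' ^ 2 * q 0 ^ 2 + (a' ^ 2 * p 3 ^ 2 + b' ^ 2 * q 3 ^ 2) : ℕ) : ℤ) =
      ((a' ^ 2 * p 1 ^ 2 + b' ^ 2 * q 1 ^ 2 + (a' ^ 2 * p 2 ^ 2 + b' ^ 2 * q 2 ^ 2) : ℕ) : ℤ) := by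
      exact_mod_cast hrel'
    push_cast at this
    linear_combination this
  set B : ℤ := (p 0 : ℤ) ^ 2 + p 3 ^ 2 - p 1 ^ 2 - p 2 ^ 2 with hB
  set C : ℤ := (q 0 : ℤ) ^ 2 + q 3 ^ 2 - q 1 ^ 2 - q 2 ^ 2 with hC
  have hBC : ¬ (B = 0 ∧ C = 0) := by
    rintro ⟨h1, h2⟩
    have h1' : p 0 ^ 2 + p 3 ^ 2 = p 1 ^ 2 + p 2 ^ 2 := by
      have : (p 0 : ℤ) ^ 2 + p 3 ^ 2 = p 1 ^ 2 + p 2 ^ 2 := by linarith
      exact_mod_cast this
    have h2' : q 0 ^ 2 + q 3 ^ 2 = q 1 ^ 2 + q 2 ^ 2 := by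
      have : (q 0 : ℤ) ^ 2 + q 3 ^ 2 = q 1 ^ 2 + q 2 ^ 2 := by linarith
      exact_mod_cast this
    have hpos0 : 0 < p 0 := Nat.pos_of_ne_zero fun h0 => by
      have := hpq 0; rw [h0, zero_mul] at this; omega
    rcases pairs _ hR hpq h1' h2' with h | h
    · apply hnd1
      have h3 : q 0 = q 1 := by
        have := (hpq 0).trans (hpq 1).symm
        rw [← h] at this
        exact Nat.eq_of_mul_eq_mul_left hpos0 this
      rw [h, h3]
    · apply hnd2
      have h3 : q 0 = q 2 := by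
        have := (hpq 0).trans (hpq 2).symm
        rw [← h] at this
        exact Nat.eq_of_mul_eq_mul_left hpos0 this
      rw [h, h3]
  have hcross : (a : ℤ) ^ 2 * b' ^ 2 = a' ^ 2 * b ^ 2 := by
    by_cases hB0 : B = 0
    · have hC0 : C ≠ 0 := fun h => hBC ⟨hB0, h⟩
      have h3 : (b : ℤ) ^ 2 * C = 0 := by rw [hB0] at r1; linarith
      rcases mul_eq_zero.1 h3 with h4 | h4
      · have : (b : ℤ) ≠ 0 := by exact_mod_cast hb.ne'
        exact absurd h4 (pow_ne_zero 2 this)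
      · exact absurd h4 hC0
    · have h3 : B * ((a : ℤ) ^ 2 * b' ^ 2 - a' ^ 2 * b ^ 2) = 0 := by
        linear_combination (b' : ℤ) ^ 2 * r1 - (b : ℤ) ^ 2 * r2
      rcases mul_eq_zero.1 h3 with h4 | h4
      · exact absurd h4 hB0
      · linarith
  have hc2 : a * b' = a' * b := by
    have h3 : (a * b') ^ 2 = (a' * b) ^ 2 := by
      have : ((a : ℤ) * b') ^ 2 = (a' * b) ^ 2 := by linear_combination hcross
      exact_mod_cast this
    exact Nat.pow_left_injective (n := 2) (by norm_num) h3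
  have haa : a = a' := by
    have d1 : a ∣ a' := hcop.dvd_of_dvd_mul_right ⟨b', hc2.symm⟩
    have d2 : a' ∣ a := hcop'.dvd_of_dvd_mul_right ⟨b, hc2⟩
    exact Nat.dvd_antisymm d1 d2
  have hbb : b = b' := by
    rw [← haa] at hc2
    exact (Nat.eq_of_mul_eq_mul_left ha hc2).symm
  funext u
  by_cases h : u = v
  · rw [h]; exact haa
  · by_cases h' : u = comp v
    · rw [h']; exact hbb
    · have := congrFun hsame u
      unfold rest at this
      simpa [h, h'] using this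

end H38.HC
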