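import Pool.Agent.H38.HC.Refine
import Pool.Agent.H38.HC.Rigid

/-!
Every three dimensional cube in the squares has a code, and the code determines the cube.
-/

set_option autoImplicit false

open Finset

namespace H38.HC

/-- Hilbert cubes of dimension `d` in the squares with `a_0` and `|a_i|` at most `N` -/
def Cubes (d N : ℕ) : Set (ℤ × (Fin d → ℤ)) :=
  {c | 0 ≤ c.1 ∧ c.1 ≤ N ∧ (∀ i, c.2 i ≠ 0 ∧ |c.2 i| ≤ N) ∧
    ∀ I : Finset (Fin d), IsSquare (c.1 + ∑ i ∈ I, c.2 i)}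

/-- the four base values -/
def base (c : ℤ × (Fin 3 → ℤ)) : Fin 4 → ℤ :=
  ![c.1, c.1 + c.2 1, c.1 + c.2 2, c.1 + c.2 1 + c.2 2]

theorem sq_nat {m : ℤ} (h : IsSquare m) : ∃ x : ℕ, m = (x : ℤ) ^ 2 := by
  obtain ⟨r, hr⟩ := h
  exact ⟨r.natAbs, by rw [Int.natAbs_sq, hr, sq]⟩

theorem base_sq {N : ℕ} {c : ℤ × (Fin 3 → ℤ)} (hc : c ∈ Cubes 3 N) (j : Fin 4) :
    (∃ x : ℕ, base c j = (x : ℤ) ^ 2) ∧ ∃ y : ℕ, base c j + c.2 0 = (y : ℤ) ^ 2 := by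
  have h := hc.2.2.2
  have e0 := h ∅
  have e1 := h {1}
  have e2 := h {2}
  have e3 := h {1, 2}
  have f0 := h {0}
  have f1 := h {0, 1}
  have f2 := h {0, 2}
  have f3 := h {0, 1, 2}
  rw [sum_empty, add_zero] at e0
  rw [sum_singleton] at e1 e2 f0
  rw [sum_pair (by decide)] at e3 f1 f2
  rw [sum_insert (by decide), sum_pair (by decide)] at f3
  fin_cases j
  · exact ⟨sq_nat e0, sq_nat f0⟩
  · refine ⟨sq_nat e1, sq_nat ?_⟩
    have : base c 1 + c.2 0 = c.1 + (c.2 0 + c.2 1) := by simp [base]; ring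
    exact this ▸ f1
  · refine ⟨sq_nat e2, sq_nat ?_⟩
    have : base c 2 + c.2 0 = c.1 + (c.2 0 + c.2 2) := by simp [base]; ring
    exact this ▸ f2
  · refine ⟨sq_nat ?_, sq_nat ?_⟩
    · have : base c 3 = c.1 + (c.2 1 + c.2 2) := by simp [base]; ring
      exact this ▸ e3
    · have : base c 3 + c.2 0 = c.1 + (c.2 0 + (c.2 1 + c.2 2)) := by simp [base]; ring
      exact this ▸ f3

/-- description of a cube by `t` and sixteen variables -/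
structure Desc (c : ℤ × (Fin 3 → ℤ)) (t : ℕ) (z : V → ℕ) : Prop where
  t0 : 0 < t
  z0 : ∀ u, 0 < z u
  n : c.2 0 = ((t ^ 2 * ∏ u, z u : ℕ) : ℤ)
  b : ∀ j, 4 * base c j = (t : ℤ) ^ 2 * ((S z j : ℤ) - E z j) ^ 2

theorem SE_prod (z : V → ℕ) (j : Fin 4) : S z j * E z j = ∏ u, z u := by
  rw [S, E, ← prod_mul_distrib]
  refine prod_congr rfl fun u _ => ?_
  split_ifs <;> simp

theorem Desc.sum {c : ℤ × (Fin 3 → ℤ)} {t : ℕ} {z : V → ℕ} (h : Desc c t z) (j : Fin 4) :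
    (t : ℤ) ^ 2 * ((S z j : ℤ) ^ 2 + (E z j : ℤ) ^ 2) = 4 * base c j + 2 * c.2 0 := by
  have h1 : ((S z j : ℤ)) * E z j = ((∏ u, z u : ℕ) : ℤ) := by exact_mod_cast SE_prod z j
  have h2 := h.n
  push_cast at h2 h1
  rw [h.b j, h2, ← h1]
  ring

theorem base_rel (c : ℤ × (Fin 3 → ℤ)) : base c 0 + base c 3 = base c 1 + base c 2 := by
  simp [base]; ring

theorem Desc.rel {c : ℤ × (Fin 3 → ℤ)} {t : ℕ} {z : V → ℕ} (h : Desc c t z) :
    (S z 0 ^ 2 + E z 0 ^ 2) + (S z 3 ^ 2 + E z 3 ^ 2) =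
      (S z 1 ^ 2 + E z 1 ^ 2) + (S z 2 ^ 2 + E z 2 ^ 2) := by
  have ht : (t : ℤ) ^ 2 ≠ 0 := pow_ne_zero 2 (by exact_mod_cast h.t0.ne')
  have h1 : (t : ℤ) ^ 2 * (((S z 0 : ℤ) ^ 2 + (E z 0 : ℤ) ^ 2) + ((S z 3 : ℤ) ^ 2 + (E z 3 : ℤ) ^ 2)) =
      (t : ℤ) ^ 2 * (((S z 1 : ℤ) ^ 2 + (E z 1 : ℤ) ^ 2) + ((S z 2 : ℤ) ^ 2 + (E z 2 : ℤ) ^ 2)) := by
    have := base_rel c
    linear_combination h.sum 0 + h.sum 3 - h.sum 1 - h.sum 2 + 4 * this
  exact_mod_cast mul_left_cancel₀ ht h1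

theorem Desc.ne {c : ℤ × (Fin 3 → ℤ)} {t : ℕ} {z : V → ℕ} (h : Desc c t z) {i j : Fin 4}
    (hij : base c i ≠ base c j) : S z i ^ 2 + E z i ^ 2 ≠ S z j ^ 2 + E z j ^ 2 := by
  intro h0
  apply hij
  have h1 : ((S z i : ℤ) ^ 2 + (E z i : ℤ) ^ 2) = (S z j : ℤ) ^ 2 + (E z j : ℤ) ^ 2 := by
    exact_mod_cast h0
  have h2 := h.sum i
  have h3 := h.sum j
  rw [h1] at h2
  linarith

theorem ext3 {c c' : ℤ × (Fin 3 → ℤ)} (h0 : c.2 0 = c'.2 0) (hb : ∀ j, base c j = base c' j) :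
    c = c' := by
  have b0 := hb 0
  have b1 := hb 1
  have b2 := hb 2
  simp [base] at b0 b1 b2
  refine Prod.ext b0 (funext fun i => ?_)
  fin_cases i
  · exact h0
  · show c.2 1 = c'.2 1; linarith
  · show c.2 2 = c'.2 2; linarith

/-- the code determines the cube -/
theorem Desc.unique {N : ℕ} {c c' : ℤ × (Fin 3 → ℤ)} (hc : c ∈ Cubes 3 N) {t : ℕ}
    {z z' : V → ℕ} (h : Desc c t z) (h' : Desc c' t z') (v : V)
    (hcop : Nat.Coprime (z v) (z (comp v))) (hcop' : Nat.Coprime (z' v) (z' (comp v)))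
    (hr : rest v z = rest v z') : c = c' := by
  have h1 : base c 0 ≠ base c 1 := by
    have := (hc.2.2.1 1).1
    simp [base, this]
  have h2 : base c 0 ≠ base c 2 := by
    have := (hc.2.2.1 2).1
    simp [base, this]
  have hz := rigid v z z' h.z0 h'.z0 hr hcop hcop' h.rel h'.rel (h.ne h1) (h.ne h2)
  subst hz
  refine ext3 (h.n.trans h'.n.symm) fun j => ?_
  have := (h.b j).trans (h'.b j).symm
  linarith

end H38.HC
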