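import Pool.Agent.H38.HC.Exist
import Pool.Agent.H92.DivBound

/-!
Counting the codes.
-/

set_option autoImplicit false

open Finset

namespace H38.HC

theorem exists_pair (z : V → ℕ) :
    ∃ v, ∏ u, z u ≤ (z v * z (comp v)) ^ 8 := by
  obtain ⟨v, -, hv⟩ := exists_max_image (univ : Finset V) (fun u => z u * z (comp u))
    ⟨fun _ => true, mem_univ _⟩
  refine ⟨v, ?_⟩
  have hinv : Function.Involutive comp := fun u => by funext j; simp [comp]
  have h1 : ∏ u, z (comp u) = ∏ u, z u := (Equiv.prod_comp hinv.toPerm z)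
  have h2 : ∏ u, (z u * z (comp u)) = (∏ u, z u) ^ 2 := by
    rw [prod_mul_distrib, h1, sq]
  have h3 : ∏ u, (z u * z (comp u)) ≤ (z v * z (comp v)) ^ (univ : Finset V).card :=
    prod_le_pow_card _ _ _ fun u hu => hv u hu
  have h4 : (univ : Finset V).card = 16 := by simp
  rw [h2, h4] at h3
  have h5 : (∏ u, z u) ^ 2 ≤ ((z v * z (comp v)) ^ 8) ^ 2 := by
    rw [← pow_mul]; exact h3
  exact (Nat.pow_le_pow_iff_left (by norm_num)).1 h5

/-- the finite set of codes -/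
def codes (N : ℕ) : Finset (V × ℕ × (V → ℕ)) :=
  ((range (N + 1)).filter (fun m => 1 ≤ m ∧ m ^ 8 ≤ N ^ 7)).biUnion fun m =>
    univ ×ˢ (m.divisors ×ˢ Fintype.piFinset fun _ => m.divisors)

theorem mem_codes {N : ℕ} (hN : 1 ≤ N) {c : ℤ × (Fin 3 → ℤ)} (hc : c ∈ Cubes 3 N)
    {t : ℕ} {z : V → ℕ} (h : Desc c t z) {v : V}
    (hv : ∏ u, z u ≤ (z v * z (comp v)) ^ 8) : (v, t, rest v z) ∈ codes N := by
  have hr0 : ∀ u, 0 < rest v z u := fun u => by
    unfold rest; split_ifs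
    · exact one_pos
    · exact h.z0 u
  have hR0 : 0 < ∏ u, rest v z u := prod_pos fun u _ => hr0 u
  have hn : t ^ 2 * ∏ u, z u ≤ N := by
    have h1 := (hc.2.2.1 0).2
    have h2 := le_trans (le_abs_self _) h1
    rw [h.n] at h2
    exact_mod_cast h2
  have hp : ∏ u, z u = z v * z (comp v) * ∏ u, rest v z u := by
    rw [prod_pair v]; rfl
  have hm0 : 1 ≤ t * ∏ u, rest v z u := Nat.mul_pos h.t0 hR0
  have hm : (t * ∏ u, rest v z u) ^ 8 ≤ N ^ 7 := by
    set R := ∏ u, rest v z u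
    set n := ∏ u, z u
    have hn0 : 0 < n := prod_pos fun u _ => h.z0 u
    have h3 : R ^ 8 ≤ n ^ 7 := by
      have h4 : n * R ^ 8 ≤ n * n ^ 7 := by
        calc n * R ^ 8 ≤ (z v * z (comp v)) ^ 8 * R ^ 8 := Nat.mul_le_mul_right _ hv
          _ = n ^ 8 := by rw [hp]; ring
          _ = n * n ^ 7 := by ring
      exact Nat.le_of_mul_le_mul_left h4 hn0
    calc (t * R) ^ 8 = t ^ 8 * R ^ 8 := by ring
      _ ≤ t ^ 14 * n ^ 7 := Nat.mul_le_mul (Nat.pow_le_pow_right h.t0 (by norm_num)) h3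
      _ = (t ^ 2 * n) ^ 7 := by ring
      _ ≤ N ^ 7 := Nat.pow_le_pow_left hn 7
  have hmN : t * ∏ u, rest v z u ≤ N := by
    by_contra hcon
    push Not at hcon
    have h4 : N ^ 8 < (t * ∏ u, rest v z u) ^ 8 := Nat.pow_lt_pow_left hcon (by norm_num)
    have h5 : N ^ 7 ≤ N ^ 8 := Nat.pow_le_pow_right hN (by norm_num)
    omega
  rw [codes, mem_biUnion]
  refine ⟨t * ∏ u, rest v z u, ?_, ?_⟩
  · rw [mem_filter, mem_range]
    exact ⟨by omega, hm0, hm⟩
  · rw [mem_product, mem_product]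
    refine ⟨mem_univ _, ?_, ?_⟩
    · rw [Nat.mem_divisors]
      exact ⟨dvd_mul_right _ _, by omega⟩
    · rw [Fintype.mem_piFinset]
      intro u
      rw [Nat.mem_divisors]
      exact ⟨(Finset.dvd_prod_of_mem _ (mem_univ u)).trans (dvd_mul_left _ _), by omega⟩

theorem finite_cubes (d N : ℕ) : (Cubes d N).Finite := by
  refine Set.Finite.subset (Set.Finite.prod (Set.finite_Icc (0 : ℤ) N)
    (Set.Finite.pi' fun _ : Fin d => Set.finite_Icc (-(N : ℤ)) N)) ?_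
  rintro c ⟨h1, h2, h3, -⟩
  exact ⟨⟨h1, h2⟩, fun i => abs_le.1 (h3 i).2⟩

/-- cubes with positive first side -/
def Pos (d N : ℕ) : Set (ℤ × (Fin (d + 3) → ℤ)) := {c | c ∈ Cubes (d + 3) N ∧ 0 < c.2 0}

theorem finite_pos (d N : ℕ) : (Pos d N).Finite :=
  (finite_cubes (d + 3) N).subset fun _ h => h.1

theorem card_codes_le (N : ℕ) (T : ℝ) (hT : ∀ m : ℕ, 1 ≤ m → m ≤ N → (m.divisors.card : ℝ) ≤ T) :
    ((codes N).card : ℝ) ≤ 16 * T ^ 17 * (N : ℝ) ^ (7 / 8 : ℝ) := by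
  have hcard : ∀ m ∈ (range (N + 1)).filter (fun m => 1 ≤ m ∧ m ^ 8 ≤ N ^ 7),
      (((univ : Finset V) ×ˢ (m.divisors ×ˢ Fintype.piFinset fun _ : V => m.divisors)).card : ℝ) ≤
        16 * T ^ 17 := by
    intro m hm
    rw [mem_filter, mem_range] at hm
    have h4 : (univ : Finset V).card = 16 := by simp
    rw [card_product, card_product, Fintype.card_piFinset, prod_const, h4]
    push_cast
    have h6 := hT m hm.2.1 (by omega)
    have h7 : (m.divisors.card : ℝ) * (m.divisors.card : ℝ) ^ 16 = (m.divisors.card : ℝ) ^ 17 := by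
      ring
    rw [h7]
    exact mul_le_mul_of_nonneg_left (pow_le_pow_left₀ (by positivity) h6 17) (by norm_num)
  have h1 : ((codes N).card : ℝ) ≤ ∑ m ∈ (range (N + 1)).filter (fun m => 1 ≤ m ∧ m ^ 8 ≤ N ^ 7),
      (((univ : Finset V) ×ˢ (m.divisors ×ˢ Fintype.piFinset fun _ : V => m.divisors)).card : ℝ) := by
    have := card_biUnion_le (s := (range (N + 1)).filter (fun m => 1 ≤ m ∧ m ^ 8 ≤ N ^ 7))
      (t := fun m => (univ : Finset V) ×ˢ (m.divisors ×ˢ Fintype.piFinset fun _ : V => m.divisors))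
    exact_mod_cast this
  refine h1.trans ((sum_le_card_nsmul _ _ _ hcard).trans ?_)
  rw [nsmul_eq_mul, mul_comm]
  have hT0 : 0 ≤ 16 * T ^ 17 ∨ N = 0 := by
    rcases Nat.eq_zero_or_pos N with h | h
    · exact Or.inr h
    · left
      have := hT 1 le_rfl h
      have h2 : (0 : ℝ) ≤ T := le_trans (by positivity) this
      positivity
  rcases hT0 with hT0 | hN0
  · refine mul_le_mul_of_nonneg_left ?_ hT0
    have h2 : (range (N + 1)).filter (fun m => 1 ≤ m ∧ m ^ 8 ≤ N ^ 7) ⊆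
        Icc 1 ⌊(N : ℝ) ^ (7 / 8 : ℝ)⌋₊ := by
      intro m hm
      rw [mem_filter, mem_range] at hm
      rw [mem_Icc]
      refine ⟨hm.2.1, Nat.le_floor ?_⟩
      have h3 : (m : ℝ) ^ 8 ≤ (N : ℝ) ^ 7 := by exact_mod_cast hm.2.2
      have h4 : (m : ℝ) = ((m : ℝ) ^ (8 : ℕ)) ^ (1 / 8 : ℝ) := by
        rw [← Real.rpow_natCast, ← Real.rpow_mul (by positivity)]
        norm_num
      have h5 : (N : ℝ) ^ (7 / 8 : ℝ) = ((N : ℝ) ^ (7 : ℕ)) ^ (1 / 8 : ℝ) := by
        rw [← Real.rpow_natCast, ← Real.rpow_mul (by positivity)]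
        norm_num
      rw [h4, h5]
      exact Real.rpow_le_rpow (by positivity) h3 (by norm_num)
    have h3 := card_le_card h2
    rw [Nat.card_Icc, Nat.add_sub_cancel] at h3
    calc ((#((range (N + 1)).filter (fun m => 1 ≤ m ∧ m ^ 8 ≤ N ^ 7)) : ℕ) : ℝ)
        ≤ (⌊(N : ℝ) ^ (7 / 8 : ℝ)⌋₊ : ℝ) := by exact_mod_cast h3
      _ ≤ (N : ℝ) ^ (7 / 8 : ℝ) := Nat.floor_le (by positivity)
  · subst hN0
    have h2 : (range (0 + 1)).filter (fun m => 1 ≤ m ∧ m ^ 8 ≤ 0 ^ 7) = ∅ := by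
      ext m
      simp only [mem_filter, mem_range, notMem_empty, iff_false, not_and]
      omega
    rw [h2]
    simp

/-- the number of three dimensional cubes with positive first side -/
theorem card_pos_three (N : ℕ) (hN : 1 ≤ N) : (Pos 0 N).ncard ≤ (codes N).card := by
  rw [Set.ncard_eq_toFinset_card _ (finite_pos 0 N)]
  refine card_le_card_of_forall_subsingleton
    (fun c k => ∃ z, Desc c k.2.1 z ∧ Nat.Coprime (z k.1) (z (comp k.1)) ∧ rest k.1 z = k.2.2)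
    ?_ ?_
  · intro c hc
    rw [Set.Finite.mem_toFinset] at hc
    obtain ⟨t, z, hd, hcop⟩ := exists_desc hc.1 hc.2
    obtain ⟨v, hv⟩ := exists_pair z
    exact ⟨(v, t, rest v z), mem_codes hN hc.1 hd hv, z, hd, hcop v, rfl⟩
  · rintro ⟨v, t, ρ⟩ -
    rintro c ⟨hc, z, hz⟩ c' ⟨hc', z', hz'⟩
    rw [Set.Finite.mem_toFinset] at hc
    exact Desc.unique hc.1 hz.1 hz'.1 v hz.2.1 hz'.2.1 (hz.2.2.trans hz'.2.2.symm)

end H38.HC
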