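import Pool.Agent.H38.HC.Code

/-!
Existence of the code.
-/

set_option autoImplicit false

open Finset

namespace H38.HC

theorem dvd_SE (z : V → ℕ) (v : V) (j : Fin 4) (g : ℕ) (h1 : g ∣ z v) (h2 : g ∣ z (comp v)) :
    g ∣ S z j ∧ g ∣ E z j := by
  have hS : ∀ u : V, u j = true → z u ∣ S z j := fun u hu => by
    have := Finset.dvd_prod_of_mem (fun u : V => if u j = true then z u else 1) (mem_univ u)
    simpa [hu, S] using this
  have hE : ∀ u : V, u j = false → z u ∣ E z j := fun u hu => by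
    have := Finset.dvd_prod_of_mem (fun u : V => if u j = true then 1 else z u) (mem_univ u)
    simpa [hu, E] using this
  rcases hv : v j with _ | _
  · have hc : comp v j = true := by simp [comp, hv]
    exact ⟨h2.trans (hS _ hc), h1.trans (hE _ hv)⟩
  · have hc : comp v j = false := by simp [comp, hv]
    exact ⟨h1.trans (hS _ hv), h2.trans (hE _ hc)⟩

theorem exists_desc {N : ℕ} {c : ℤ × (Fin 3 → ℤ)} (hc : c ∈ Cubes 3 N) (h0 : 0 < c.2 0) :
    ∃ (t : ℕ) (z : V → ℕ), Desc c t z ∧ ∀ v, Nat.Coprime (z v) (z (comp v)) := by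
  choose x hx using fun j => (base_sq hc j).1
  choose y hy using fun j => (base_sq hc j).2
  have hxy : ∀ j, x j < y j := fun j => by
    have h1 : (x j : ℤ) ^ 2 < (y j : ℤ) ^ 2 := by rw [← hx, ← hy]; linarith
    have h2 : x j ^ 2 < y j ^ 2 := by exact_mod_cast h1
    exact lt_of_pow_lt_pow_left₀ 2 (Nat.zero_le _) h2
  obtain ⟨n, hn⟩ : ∃ n : ℕ, c.2 0 = n := ⟨(c.2 0).toNat, (Int.toNat_of_nonneg h0.le).symm⟩
  have hn0 : 0 < n := by rw [hn] at h0; exact_mod_cast h0
  set s₀ : Fin 4 → ℕ := fun j => y j + x j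
  set e₀ : Fin 4 → ℕ := fun j => y j - x j
  have he₀ : ∀ j, (e₀ j : ℤ) = y j - x j := fun j => by
    simp only [e₀]
    push_cast [Nat.cast_sub (hxy j).le]
    ring
  have hse : ∀ j, s₀ j * e₀ j = n := fun j => by
    have : ((s₀ j * e₀ j : ℕ) : ℤ) = n := by
      push_cast
      rw [he₀ j, ← hn]
      have h1 := hx j
      have h2 := hy j
      simp only [s₀]
      push_cast
      linear_combination h1 - h2
    exact_mod_cast this
  -- the greatest common divisor
  set t := (univ : Finset (Fin 4)).gcd (fun j => Nat.gcd (s₀ j) (e₀ j)) with ht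
  have htd : ∀ j, t ∣ s₀ j ∧ t ∣ e₀ j := fun j => by
    have h1 : t ∣ Nat.gcd (s₀ j) (e₀ j) := Finset.gcd_dvd (mem_univ j)
    exact ⟨h1.trans (Nat.gcd_dvd_left _ _), h1.trans (Nat.gcd_dvd_right _ _)⟩
  choose s hs using fun j => (htd j).1
  choose e he using fun j => (htd j).2
  have ht0 : 0 < t := Nat.pos_of_ne_zero fun h => by
    have := hse 0
    rw [hs 0, h, zero_mul, zero_mul] at this
    omega
  have hm : ∀ j, s j * e j = s 0 * e 0 := fun j => by
    have h1 : (t * t) * (s j * e j) = (t * t) * (s 0 * e 0) := by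
      have h2 := (hse j).trans (hse 0).symm
      rw [hs j, he j, hs 0, he 0] at h2
      linear_combination h2
    exact Nat.eq_of_mul_eq_mul_left (Nat.mul_pos ht0 ht0) h1
  have hm0 : 0 < s 0 * e 0 := Nat.pos_of_ne_zero fun h => by
    have h2 := hse 0
    rw [hs 0, he 0] at h2
    have h3 : t * s 0 * (t * e 0) = t * t * (s 0 * e 0) := by ring
    rw [h3, h, mul_zero] at h2
    omega
  obtain ⟨z, hz, hzj⟩ := refine_all 4 (s 0 * e 0) hm0 s e hm
  have hS : ∀ j, S z j = s j := fun j => (hzj j).1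
  have hE : ∀ j, E z j = e j := fun j => (hzj j).2
  have hz0 : ∀ u, 0 < z u := fun u => Nat.pos_of_ne_zero fun h => by
    have : ∏ u, z u = 0 := prod_eq_zero (mem_univ u) h
    rw [hz] at this
    omega
  refine ⟨t, z, ⟨ht0, hz0, ?_, fun j => ?_⟩, fun v => ?_⟩
  · rw [hz, hn]
    have h2 := hse 0
    rw [hs 0, he 0] at h2
    rw [← h2]
    push_cast
    ring
  · rw [hS, hE]
    have h1 : (s₀ j : ℤ) = t * s j := by exact_mod_cast hs j
    have h2 : (e₀ j : ℤ) = t * e j := by exact_mod_cast he j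
    have h3 : (s₀ j : ℤ) - e₀ j = 2 * x j := by
      rw [he₀ j]
      simp only [s₀]
      push_cast
      ring
    rw [hx j]
    have h4 : (t : ℤ) * s j - t * e j = 2 * x j := by rw [← h1, ← h2, h3]
    linear_combination (-(t : ℤ) * s j + t * e j - 2 * x j) * h4
  · -- coprimality
    have h1 : ∀ g, g ∣ z v → g ∣ z (comp v) → g ∣ 1 := by
      intro g hg1 hg2
      have h2 : t * g ∣ t := by
        conv_rhs => rw [ht]
        refine Finset.dvd_gcd fun j _ => Nat.dvd_gcd ?_ ?_
        · rw [hs j]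
          exact Nat.mul_dvd_mul_left t (by rw [← hS j]; exact (dvd_SE z v j g hg1 hg2).1)
        · rw [he j]
          exact Nat.mul_dvd_mul_left t (by rw [← hE j]; exact (dvd_SE z v j g hg1 hg2).2)
      have h3 : t * g ∣ t * 1 := by simpa using h2
      exact Nat.dvd_of_mul_dvd_mul_left ht0 h3
    exact Nat.dvd_one.1 (h1 _ (Nat.gcd_dvd_left _ _) (Nat.gcd_dvd_right _ _))

end H38.HC
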