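import Pool.Agent.H38.HC.Count

/-!
The number of Hilbert cubes in the squares.
-/

set_option autoImplicit false

open Finset

namespace H38.HC

def proj {d : ℕ} (c : ℤ × (Fin (d + 3) → ℤ)) : ℤ × (Fin 3 → ℤ) :=
  (c.1, fun i => c.2 (Fin.castLE (by omega) i))

theorem proj_mem {d N : ℕ} {c : ℤ × (Fin (d + 3) → ℤ)} (hc : c ∈ Pos d N) : proj c ∈ Pos 0 N := by
  refine ⟨⟨hc.1.1, hc.1.2.1, fun i => hc.1.2.2.1 _, fun I => ?_⟩, hc.2⟩
  have := hc.1.2.2.2 (I.map (Fin.castLEEmb (by omega : 3 ≤ d + 3)))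
  rw [sum_map] at this
  exact this

theorem pair_sq {d N : ℕ} {c : ℤ × (Fin (d + 3) → ℤ)} (hc : c ∈ Pos d N) (i : Fin (d + 3))
    (hi : i ≠ 0) : ∃ x y : ℕ, c.1 + c.2 i = (x : ℤ) ^ 2 ∧ c.1 + c.2 i + c.2 0 = (y : ℤ) ^ 2 := by
  have h1 := hc.1.2.2.2 {i}
  have h2 := hc.1.2.2.2 {i, 0}
  rw [sum_singleton] at h1
  rw [sum_pair hi, ← add_assoc] at h2
  obtain ⟨x, hx⟩ := sq_nat h1
  obtain ⟨y, hy⟩ := sq_nat h2
  exact ⟨x, y, hx, hy⟩

theorem card_pos (d N : ℕ) (T : ℝ) (hT : ∀ m : ℕ, 1 ≤ m → m ≤ N → (m.divisors.card : ℝ) ≤ T) :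
    ((Pos d N).ncard : ℝ) ≤ (Pos 0 N).ncard * T ^ (d + 3) := by
  rw [Set.ncard_eq_toFinset_card _ (finite_pos d N), Set.ncard_eq_toFinset_card _ (finite_pos 0 N)]
  have h1 : (finite_pos d N).toFinset.card ≤ ((finite_pos 0 N).toFinset.sigma
      (fun c => Fintype.piFinset fun _ : Fin (d + 3) => (c.2 0).natAbs.divisors)).card := by
    refine card_le_card_of_forall_subsingleton
      (fun c k => k.1 = proj c ∧ ∀ i, i ≠ 0 → ∃ x y : ℕ, c.1 + c.2 i = (x : ℤ) ^ 2 ∧
        c.1 + c.2 i + c.2 0 = (y : ℤ) ^ 2 ∧ k.2 i = y + x) ?_ ?_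
    · intro c hc
      rw [Set.Finite.mem_toFinset] at hc
      have h2 : ∀ i, ∃ x y : ℕ, i ≠ 0 → c.1 + c.2 i = (x : ℤ) ^ 2 ∧
          c.1 + c.2 i + c.2 0 = (y : ℤ) ^ 2 := fun i => by
        by_cases hi : i = 0
        · exact ⟨0, 0, fun h => absurd hi h⟩
        · obtain ⟨x, y, h⟩ := pair_sq hc i hi
          exact ⟨x, y, fun _ => h⟩
      choose x y hxy using h2
      refine ⟨⟨proj c, fun i => if i = 0 then 1 else y i + x i⟩, ?_, rfl, fun i hi => ?_⟩
      · rw [mem_sigma]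
        refine ⟨by rw [Set.Finite.mem_toFinset]; exact proj_mem hc, ?_⟩
        rw [Fintype.mem_piFinset]
        intro i
        rw [Nat.mem_divisors]
        have h3 : (proj c).2 0 = c.2 0 := rfl
        have h4 := hc.2
        refine ⟨?_, by rw [h3]; exact Int.natAbs_ne_zero.2 h4.ne'⟩
        dsimp only
        split_ifs with hi
        · exact one_dvd _
        · obtain ⟨e1, e2⟩ := hxy i hi
          rw [h3, ← Int.natCast_dvd_natCast, Int.dvd_natAbs]
          refine ⟨(y i : ℤ) - x i, ?_⟩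
          push_cast
          linear_combination e2 - e1
      · obtain ⟨e1, e2⟩ := hxy i hi
        refine ⟨x i, y i, e1, e2, ?_⟩
        dsimp only
        rw [if_neg hi]
    · rintro ⟨c3, f⟩ -
      rintro c ⟨hc, hc3, hf⟩ c' ⟨-, hc3', hf'⟩
      rw [Set.Finite.mem_toFinset] at hc
      have h2 : proj c = proj c' := hc3.symm.trans hc3'
      have h3 : (proj c).1 = (proj c').1 := by rw [h2]
      have h4 : (proj c).2 0 = (proj c').2 0 := by rw [h2]
      change c.1 = c'.1 at h3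
      change c.2 0 = c'.2 0 at h4
      refine Prod.ext h3 (funext fun i => ?_)
      by_cases hi : i = 0
      · rw [hi]; exact h4
      · obtain ⟨x, y, e1, e2, e3⟩ := hf i hi
        obtain ⟨x', y', e1', e2', e3'⟩ := hf' i hi
        have hs : (y : ℤ) + x = y' + x' := by exact_mod_cast e3.symm.trans e3'
        have hp : 0 < c.2 0 := hc.2
        have h5 : ((y : ℤ) - x) * (y + x) = c.2 0 := by linear_combination e1 - e2
        have h6 : ((y' : ℤ) - x') * (y' + x') = c.2 0 := by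
          rw [h4]; linear_combination e1' - e2'
        have h7 : (y : ℤ) + x ≠ 0 := fun h => by rw [h, mul_zero] at h5; omega
        have h8 : (y : ℤ) - x = y' - x' := by
          rw [← hs] at h6
          exact mul_right_cancel₀ h7 (h5.trans h6.symm)
        have h9 : (x : ℤ) = x' := by linarith
        rw [h9] at e1
        linarith
  have h2 : ((((finite_pos 0 N).toFinset.sigma
      (fun c => Fintype.piFinset fun _ : Fin (d + 3) => (c.2 0).natAbs.divisors)).card : ℕ) : ℝ) ≤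
        (finite_pos 0 N).toFinset.card * T ^ (d + 3) := by
    rw [card_sigma]
    push_cast
    refine (sum_le_card_nsmul _ _ (T ^ (d + 3)) fun c hc => ?_).trans (by rw [nsmul_eq_mul])
    rw [Set.Finite.mem_toFinset] at hc
    rw [Fintype.card_piFinset, prod_const, card_univ, Fintype.card_fin]
    push_cast
    refine pow_le_pow_left₀ (by positivity) (hT _ ?_ ?_) _
    · have := hc.2
      omega
    · have := (hc.1.2.2.1 0).2
      rw [Int.abs_eq_natAbs] at this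
      exact_mod_cast this
  exact (by exact_mod_cast h1 : ((finite_pos d N).toFinset.card : ℝ) ≤ _).trans h2

/-- reflection in the first side -/
def refl {d : ℕ} (c : ℤ × (Fin (d + 3) → ℤ)) : ℤ × (Fin (d + 3) → ℤ) :=
  (c.1 + c.2 0, Function.update c.2 0 (-c.2 0))

theorem refl_refl {d : ℕ} (c : ℤ × (Fin (d + 3) → ℤ)) : refl (refl c) = c := by
  unfold refl
  simp

theorem refl_mem {d N : ℕ} {c : ℤ × (Fin (d + 3) → ℤ)} (hc : c ∈ Cubes (d + 3) N)
    (h0 : c.2 0 < 0) : refl c ∈ Pos d N := by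
  have hsq : IsSquare (c.1 + c.2 0) := by
    have := hc.2.2.2 {0}
    rwa [sum_singleton] at this
  have hn : 0 ≤ c.1 + c.2 0 := by
    obtain ⟨r, hr⟩ := hsq
    rw [hr]; exact mul_self_nonneg r
  refine ⟨⟨hn, ?_, fun i => ?_, fun I => ?_⟩, ?_⟩
  · have := hc.2.1
    show c.1 + c.2 0 ≤ N
    linarith
  · show Function.update c.2 0 (-c.2 0) i ≠ 0 ∧ |Function.update c.2 0 (-c.2 0) i| ≤ N
    by_cases hi : i = 0
    · subst hi
      rw [Function.update_self, abs_neg]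
      exact ⟨neg_ne_zero.2 (hc.2.2.1 0).1, (hc.2.2.1 0).2⟩
    · rw [Function.update_of_ne hi]
      exact hc.2.2.1 i
  · show IsSquare (c.1 + c.2 0 + ∑ i ∈ I, Function.update c.2 0 (-c.2 0) i)
    by_cases hI : (0 : Fin (d + 3)) ∈ I
    · have h1 : ∑ i ∈ I, Function.update c.2 0 (-c.2 0) i = -c.2 0 + ∑ i ∈ I.erase 0, c.2 i := by
        rw [← add_sum_erase I _ hI, Function.update_self]
        congr 1
        exact sum_congr rfl fun i hi => Function.update_of_ne (ne_of_mem_erase hi) _ _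
      rw [h1]
      have := hc.2.2.2 (I.erase 0)
      have h2 : c.1 + c.2 0 + (-c.2 0 + ∑ i ∈ I.erase 0, c.2 i) = c.1 + ∑ i ∈ I.erase 0, c.2 i := by
        ring
      rwa [h2]
    · have h1 : ∑ i ∈ I, Function.update c.2 0 (-c.2 0) i = ∑ i ∈ I, c.2 i :=
        sum_congr rfl fun i hi => Function.update_of_ne (fun h => hI (by rw [← h]; exact hi)) _ _
      have := hc.2.2.2 (insert 0 I)
      rw [sum_insert hI, ← add_assoc] at this
      rwa [h1]
  · show 0 < Function.update c.2 0 (-c.2 0) 0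
    rw [Function.update_self]
    linarith

theorem card_cubes_le (d N : ℕ) : (Cubes (d + 3) N).ncard ≤ 2 * (Pos d N).ncard := by
  have h1 : Cubes (d + 3) N ⊆ Pos d N ∪ refl '' (Pos d N) := by
    intro c hc
    rcases lt_trichotomy (c.2 0) 0 with h | h | h
    · right
      exact ⟨refl c, refl_mem hc h, refl_refl c⟩
    · exact absurd h (hc.2.2.1 0).1
    · left
      exact ⟨hc, h⟩
  have hf := finite_pos d N
  calc (Cubes (d + 3) N).ncard ≤ (Pos d N ∪ refl '' (Pos d N)).ncard :=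
        Set.ncard_le_ncard h1 (hf.union (hf.image _))
    _ ≤ (Pos d N).ncard + (refl '' (Pos d N)).ncard := Set.ncard_union_le _ _
    _ ≤ (Pos d N).ncard + (Pos d N).ncard := by
        have := Set.ncard_image_le (f := refl) hf
        omega
    _ = 2 * (Pos d N).ncard := by ring

theorem main (d : ℕ) (hd : 3 ≤ d) (ε : ℝ) (hε : 0 < ε) :
    ∃ C : ℝ, ∀ N : ℕ, 1 ≤ N → (Cubes d N).Finite ∧
      ((Cubes d N).ncard : ℝ) ≤ C * (N : ℝ) ^ (7 / 8 + ε) := by
  obtain ⟨e, rfl⟩ : ∃ e, d = e + 3 := ⟨d - 3, by omega⟩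
  set δ : ℝ := ε / (17 + (e + 3)) with hδ
  have hδ0 : 0 < δ := by positivity
  obtain ⟨C, hC, hdiv⟩ := Pool.Agent.H5.W.divisor_bound δ hδ0
  refine ⟨2 * (16 * C ^ 17 * C ^ (e + 3)), fun N hN => ⟨finite_cubes _ N, ?_⟩⟩
  have hN0 : (0 : ℝ) < N := by exact_mod_cast hN
  set T : ℝ := C * (N : ℝ) ^ δ with hT
  have hTb : ∀ m : ℕ, 1 ≤ m → m ≤ N → (m.divisors.card : ℝ) ≤ T := fun m h1 h2 => by
    refine (hdiv m h1).trans (mul_le_mul_of_nonneg_left ?_ hC.le)
    exact Real.rpow_le_rpow (by positivity) (by exact_mod_cast h2) hδ0.le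
  have h1 := card_cubes_le e N
  have h2 := card_pos e N T hTb
  have h3 := card_pos_three N hN
  have h4 := card_codes_le N T hTb
  have hT0 : 0 ≤ T := by positivity
  have h1' : ((Cubes (e + 3) N).ncard : ℝ) ≤ 2 * (Pos e N).ncard := by exact_mod_cast h1
  have h3' : ((Pos 0 N).ncard : ℝ) ≤ 16 * T ^ 17 * (N : ℝ) ^ (7 / 8 : ℝ) :=
    le_trans (by exact_mod_cast h3) h4
  have hpow : T ^ 17 * T ^ (e + 3) = C ^ 17 * C ^ (e + 3) * (N : ℝ) ^ ε := by
    have h5 : ((N : ℝ) ^ δ) ^ (17 + (e + 3)) = (N : ℝ) ^ ε := by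
      rw [← Real.rpow_natCast, ← Real.rpow_mul hN0.le]
      congr 1
      rw [hδ]
      push_cast
      field_simp
    rw [← pow_add, hT, mul_pow, h5, pow_add]
  calc ((Cubes (e + 3) N).ncard : ℝ) ≤ 2 * (Pos e N).ncard := h1'
    _ ≤ 2 * ((Pos 0 N).ncard * T ^ (e + 3)) := by linarith
    _ ≤ 2 * ((16 * T ^ 17 * (N : ℝ) ^ (7 / 8 : ℝ)) * T ^ (e + 3)) := by
        have := mul_le_mul_of_nonneg_right h3' (pow_nonneg hT0 (e + 3))
        linarith
    _ = 2 * (16 * (T ^ 17 * T ^ (e + 3)) * (N : ℝ) ^ (7 / 8 : ℝ)) := by ring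
    _ = 2 * (16 * C ^ 17 * C ^ (e + 3)) * ((N : ℝ) ^ (7 / 8 : ℝ) * (N : ℝ) ^ ε) := by
        rw [hpow]; ring
    _ = 2 * (16 * C ^ 17 * C ^ (e + 3)) * (N : ℝ) ^ (7 / 8 + ε) := by
        rw [← Real.rpow_add hN0]

end H38.HC
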