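import Mathlib

/-!
Common refinement of several factorisations of a natural number, and the rigidity of a pair of
complementary variables.
-/

set_option autoImplicit false

open Finset

namespace H38.HC

/-- splitting a finite product of natural numbers according to a factorisation -/
theorem split {ι : Type} [DecidableEq ι] (S : Finset ι) (m : ι → ℕ) (s e : ℕ)
    (hs : 0 < s) (he : 0 < e) (h : ∏ i ∈ S, m i = s * e) :
    ∃ g k : ι → ℕ, (∀ i ∈ S, m i = g i * k i) ∧ ∏ i ∈ S, g i = s ∧ ∏ i ∈ S, k i = e := by
  induction S using Finset.induction_on generalizing s e with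
  | empty =>
    simp only [prod_empty] at h
    have hs1 : s = 1 := Nat.eq_one_of_mul_eq_one_right h.symm
    have he1 : e = 1 := Nat.eq_one_of_mul_eq_one_left h.symm
    exact ⟨fun _ => 1, fun _ => 1, by simp, by simp [hs1], by simp [he1]⟩
  | insert a S ha ih =>
    rw [prod_insert ha] at h
    have hd : m a ∣ s * e := ⟨_, h.symm⟩
    obtain ⟨g₀, k₀, hg, hk, hm⟩ := exists_dvd_and_dvd_of_dvd_mul hd
    obtain ⟨s', hs'⟩ := hg
    obtain ⟨e', he'⟩ := hk
    have hg0 : 0 < g₀ := Nat.pos_of_ne_zero fun h0 => by rw [h0, zero_mul] at hs'; omega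
    have hk0 : 0 < k₀ := Nat.pos_of_ne_zero fun h0 => by rw [h0, zero_mul] at he'; omega
    have hs'0 : 0 < s' := Nat.pos_of_ne_zero fun h0 => by rw [h0, mul_zero] at hs'; omega
    have he'0 : 0 < e' := Nat.pos_of_ne_zero fun h0 => by rw [h0, mul_zero] at he'; omega
    have h1 : ∏ i ∈ S, m i = s' * e' := by
      have h2 : (g₀ * k₀) * ∏ i ∈ S, m i = (g₀ * k₀) * (s' * e') := by
        rw [← hm, h, hs', he', hm]; ring
      exact Nat.eq_of_mul_eq_mul_left (Nat.mul_pos hg0 hk0) h2
    obtain ⟨g, k, hgk, hgs, hke⟩ := ih s' e' hs'0 he'0 h1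
    refine ⟨Function.update g a g₀, Function.update k a k₀, ?_, ?_, ?_⟩
    · intro i hi
      rcases Finset.mem_insert.1 hi with rfl | hi'
      · simp [hm]
      · have hne : i ≠ a := fun h0 => ha (h0 ▸ hi')
        simp [Function.update_of_ne hne, hgk i hi']
    · rw [prod_insert ha, Function.update_self, hs']
      congr 1
      rw [← hgs]
      refine prod_congr rfl fun i hi => ?_
      have hne : i ≠ a := fun h0 => ha (h0 ▸ hi)
      simp [Function.update_of_ne hne]
    · rw [prod_insert ha, Function.update_self, he']
      congr 1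
      rw [← hke]
      refine prod_congr rfl fun i hi => ?_
      have hne : i ≠ a := fun h0 => ha (h0 ▸ hi)
      simp [Function.update_of_ne hne]

theorem prod_cons {k : ℕ} (F : (Fin (k + 1) → Bool) → ℕ) :
    ∏ w, F w = (∏ v : Fin k → Bool, F (Fin.cons true v)) *
      ∏ v : Fin k → Bool, F (Fin.cons false v) := by
  rw [← (Fin.consEquiv (fun _ : Fin (k + 1) => Bool)).prod_comp, Fintype.prod_prod_type,
    Fintype.prod_bool]
  rfl

/-- common refinement of `k` factorisations of `n` -/
theorem refine_all (k n : ℕ) (hn : 0 < n) (s e : Fin k → ℕ) (h : ∀ j, s j * e j = n) :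
    ∃ z : (Fin k → Bool) → ℕ, ∏ v, z v = n ∧
      ∀ j, ∏ v, (if v j = true then z v else 1) = s j ∧
        ∏ v, (if v j = true then 1 else z v) = e j := by
  induction k with
  | zero => exact ⟨fun _ => n, by simp, fun j => j.elim0⟩
  | succ k ih =>
    obtain ⟨z, hz, hj⟩ := ih (fun j => s j.succ) (fun j => e j.succ) (fun j => h j.succ)
    have hs0 : 0 < s 0 := Nat.pos_of_ne_zero fun h0 => by
      have := h 0; rw [h0, zero_mul] at this; omega
    have he0 : 0 < e 0 := Nat.pos_of_ne_zero fun h0 => by
      have := h 0; rw [h0, mul_zero] at this; omega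
    obtain ⟨g, q, hgq, hg, hq⟩ := split univ z (s 0) (e 0) hs0 he0 (by rw [hz, h 0])
    have key : ∀ (P : (Fin k → Bool) → Prop) [DecidablePred P],
        (∏ v, (if P v then g v else 1)) * (∏ v, (if P v then q v else 1)) =
          ∏ v, (if P v then z v else 1) := by
      intro P _
      rw [← prod_mul_distrib]
      refine prod_congr rfl fun v _ => ?_
      split_ifs
      · rw [hgq v (mem_univ v)]
      · rfl
    refine ⟨fun w => if w 0 = true then g (Fin.tail w) else q (Fin.tail w), ?_, fun j => ?_⟩
    · rw [prod_cons]
      simp only [Fin.cons_zero, if_true, Fin.tail_cons]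
      simp only [Bool.false_eq_true, if_false]
      rw [hg, hq, h 0]
    · refine Fin.cases ?_ (fun i => ?_) j
      · constructor
        · rw [prod_cons]
          simp only [Fin.cons_zero, if_true, Fin.tail_cons, Bool.false_eq_true, if_false]
          rw [hg]; simp
        · rw [prod_cons]
          simp only [Fin.cons_zero, if_true, Fin.tail_cons, Bool.false_eq_true, if_false]
          rw [hq]; simp
      · constructor
        · rw [prod_cons]
          simp only [Fin.cons_zero, if_true, Fin.tail_cons, Bool.false_eq_true, if_false,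
            Fin.cons_succ]
          rw [key (fun v => v i = true)]
          exact (hj i).1
        · rw [prod_cons]
          simp only [Fin.cons_zero, if_true, Fin.tail_cons, Bool.false_eq_true, if_false,
            Fin.cons_succ]
          have h3 := key (fun v => ¬ v i = true)
          simp only [ite_not] at h3
          rw [h3]
          exact (hj i).2

end H38.HC
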